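import Pool.Agent.Helper15.AF.Goals4

/-!
AF-AFS (MP_34c247_lc): affine subspaces of small codimension are given by few equations.
-/

namespace Pool.Agent.Helper95.AF

open Pool.Agent.Helper51.ZP Pool.Agent.Helper15.AF
open Pool.Agent.Helper78.CG (Witnessed prob coins frac)
open scoped Classical

/-- Subspaces of small codimension are given by few forms. -/
theorem core (n C0 : ℕ) (W : Submodule (ZMod 2) (Fin n → ZMod 2))
    (h : n ≤ Module.finrank (ZMod 2) W + C0) :
    ∃ a : Fin C0 → Fin n → ZMod 2, ∀ w, w ∈ W ↔ ∀ i, ∑ v, a i v * w v = 0 := by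
  have hd := Subspace.finrank_add_finrank_dualAnnihilator_eq W
  rw [Module.finrank_fin_fun] at hd
  set ρ := Module.finrank (ZMod 2) W.dualAnnihilator with hρ
  have hρC : ρ ≤ C0 := by omega
  let b := Module.finBasis (ZMod 2) W.dualAnnihilator
  let f : Fin C0 → Module.Dual (ZMod 2) (Fin n → ZMod 2) := fun i =>
    if hi : (i : ℕ) < ρ then (b ⟨i, hi⟩ : Module.Dual (ZMod 2) (Fin n → ZMod 2)) else 0
  refine ⟨fun i v => f i (fun j => if v = j then 1 else 0), fun w => ?_⟩
  have hs : ∀ i, ∑ v, f i (fun j => if v = j then 1 else 0) * w v = f i w := by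
    intro i
    rw [LinearMap.pi_apply_eq_sum_univ (f i) w]
    apply Finset.sum_congr rfl
    intro v _
    rw [smul_eq_mul, mul_comm]
  simp only [hs]
  constructor
  · intro hw i
    by_cases hi : (i : ℕ) < ρ
    · have hm := (b ⟨i, hi⟩).2
      rw [Submodule.mem_dualAnnihilator] at hm
      simp only [f, dif_pos hi]
      exact hm w hw
    · simp only [f, dif_neg hi, LinearMap.zero_apply]
  · intro hw
    rw [← Subspace.dualAnnihilator_dualCoannihilator_eq (W := W), Submodule.mem_dualCoannihilator]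
    intro φ hφ
    have hr := b.sum_repr ⟨φ, hφ⟩
    have hr' := congrArg (fun z : W.dualAnnihilator =>
      (z : Module.Dual (ZMod 2) (Fin n → ZMod 2)) w) hr
    simp only [] at hr'
    rw [← hr']
    rw [AddSubmonoidClass.coe_finsetSum, LinearMap.sum_apply]
    apply Finset.sum_eq_zero
    intro i _
    have hi : (i : ℕ) < C0 := lt_of_lt_of_le i.2 hρC
    have hf : f ⟨i, hi⟩ = (b i : Module.Dual (ZMod 2) (Fin n → ZMod 2)) := dif_pos i.2
    have := hw ⟨i, hi⟩
    rw [hf] at this
    rw [Submodule.coe_smul, LinearMap.smul_apply, this, smul_zero]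

/-- the vector of a coin string -/
def vec {n : ℕ} (x : Fin n → Bool) : Fin n → ZMod 2 := fun v => b2z (x v)

theorem b2z_xor (a b : Bool) : b2z (xor a b) = b2z a + b2z b := by
  revert a b; decide

theorem b2z_inj {a b : Bool} (h : b2z a = b2z b) : a = b := by
  revert a b; decide

theorem vec_inj {n : ℕ} {x y : Fin n → Bool} (h : vec x = vec y) : x = y :=
  funext fun v => b2z_inj (congrFun h v)

theorem char2 {n : ℕ} (x : Fin n → ZMod 2) : x + x = 0 := by
  funext v
  show x v + x v = 0
  generalize x v = a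
  revert a
  decide

theorem vec_xor {n : ℕ} (x y : Fin n → Bool) : vec (fun v => xor (x v) (y v)) = vec x + vec y :=
  funext fun v => b2z_xor _ _

/-- the direction of an affine subspace -/
def dir {n : ℕ} (B : Set (Fin n → Bool)) (hB : Affine B) (y0 : Fin n → Bool) (h0 : y0 ∈ B) :
    Submodule (ZMod 2) (Fin n → ZMod 2) where
  carrier := {w | ∃ y ∈ B, w = vec y + vec y0}
  zero_mem' := ⟨y0, h0, (char2 _).symm⟩
  add_mem' := by
    rintro _ _ ⟨y, hy, rfl⟩ ⟨y', hy', rfl⟩
    refine ⟨_, hB y hy y0 h0 y' hy', ?_⟩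
    rw [vec_xor y (fun v => xor (y0 v) (y' v)), vec_xor y0 y']
    abel
  smul_mem' := by
    rintro c _ ⟨y, hy, rfl⟩
    have hc : c = 0 ∨ c = 1 := by revert c; decide
    rcases hc with rfl | rfl
    · rw [zero_smul]
      exact ⟨y0, h0, (char2 _).symm⟩
    · rw [one_smul]
      exact ⟨y, hy, rfl⟩

theorem mem_dir {n : ℕ} (B : Set (Fin n → Bool)) (hB : Affine B) (y0 : Fin n → Bool)
    (h0 : y0 ∈ B) (x : Fin n → Bool) : vec x + vec y0 ∈ dir B hB y0 h0 ↔ x ∈ B := by
  constructor
  · rintro ⟨y, hy, he⟩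
    have : vec x = vec y := add_right_cancel he
    rw [vec_inj this]
    exact hy
  · intro hx
    exact ⟨x, hx, rfl⟩

theorem card_dir {n : ℕ} (B : Set (Fin n → Bool)) (hB : Affine B) (y0 : Fin n → Bool)
    (h0 : y0 ∈ B) : Nat.card B = 2 ^ Module.finrank (ZMod 2) (dir B hB y0 h0) := by
  have h1 : Nat.card (dir B hB y0 h0) = 2 ^ Module.finrank (ZMod 2) (dir B hB y0 h0) := by
    rw [Module.natCard_eq_pow_finrank (K := ZMod 2), Nat.card_zmod]
  rw [← h1]
  refine Nat.card_congr (Equiv.ofBijective
    (fun y : B => (⟨vec y.1 + vec y0, y.1, y.2, rfl⟩ : dir B hB y0 h0)) ⟨?_, ?_⟩)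
  · intro y y' h
    have h' := congrArg Subtype.val h
    exact Subtype.ext (vec_inj (add_right_cancel h'))
  · rintro ⟨_, y, hy, rfl⟩
    exact ⟨⟨y, hy⟩, rfl⟩

/-- AFS -/
theorem afs : AfsStmt := by
  intro n C0 B hB
  by_cases hne : B.Nonempty
  · obtain ⟨y0, h0⟩ := hne
    have hcard := card_dir B hB y0 h0
    have hle : Module.finrank (ZMod 2) (dir B hB y0 h0) ≤ n := by
      have := Submodule.finrank_le (dir B hB y0 h0)
      rwa [Module.finrank_fin_fun] at this
    by_cases hC : n ≤ Module.finrank (ZMod 2) (dir B hB y0 h0) + C0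
    · right
      obtain ⟨a, ha⟩ := core n C0 _ hC
      refine ⟨a, fun i => dot (a i) y0, fun x => ?_⟩
      rw [← mem_dir B hB y0 h0 x, ha]
      apply forall_congr'
      intro i
      have : ∑ v, a i v * (vec x + vec y0) v = dot (a i) x + dot (a i) y0 := by
        unfold dot
        rw [← Finset.sum_add_distrib]
        apply Finset.sum_congr rfl
        intro v _
        show a i v * (b2z (x v) + b2z (y0 v)) = _
        ring
      rw [this]
      show dot (a i) x + dot (a i) y0 = 0 ↔ dot (a i) x = dot (a i) y0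
      generalize dot (a i) x = s
      generalize dot (a i) y0 = s'
      revert s s'
      decide
    · left
      unfold prob
      rw [hcard]
      push Not at hC
      have h2 : (2 : ℝ) ^ n = 2 ^ Module.finrank (ZMod 2) (dir B hB y0 h0) *
          2 ^ (n - Module.finrank (ZMod 2) (dir B hB y0 h0)) := by
        rw [← pow_add]
        congr 1
        omega
      rw [h2]
      push_cast
      have hp : (0 : ℝ) < 2 ^ Module.finrank (ZMod 2) (dir B hB y0 h0) := by positivity
      rw [div_mul_cancel_left₀ hp.ne', ← one_div]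
      apply one_div_lt_one_div_of_lt (by positivity)
      exact pow_lt_pow_right₀ (by norm_num) (by omega)
  · left
    have : B = ∅ := Set.not_nonempty_iff_eq_empty.1 hne
    subst this
    unfold prob
    have h0 : Nat.card (∅ : Set (Fin n → Bool)) = 0 := by simp
    rw [h0]
    simp

end Pool.Agent.Helper95.AF
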