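import Pool.Agent.Helper15.AF.Goals2

/-!
AF-GYP (MP_34c247_lc): most strings are good.
-/

namespace Pool.Agent.Helper95.AF

open Pool.Agent.Helper51.ZP Pool.Agent.Helper78.DT Pool.Agent.Helper78.JT Pool.Agent.Helper15.AF
open scoped Classical

/-- the set of the values of `g` -/
noncomputable def gset {n D : ℕ} (g : Fin D → Option (Fin n)) : Finset (Fin n) :=
  Finset.univ.filter fun v => ∃ i, g i = some v

/-- the functions with values in `X` or `none` -/
noncomputable def fs {n : ℕ} (D : ℕ) (X : Finset (Fin n)) : Finset (Fin D → Option (Fin n)) :=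
  Fintype.piFinset fun _ => insert none (X.image some)

theorem card_fs {n : ℕ} (D : ℕ) (X : Finset (Fin n)) : (fs D X).card ≤ (X.card + 1) ^ D := by
  unfold fs
  rw [Fintype.card_piFinset, Finset.prod_const, Finset.card_univ, Fintype.card_fin]
  apply Nat.pow_le_pow_left
  refine (Finset.card_insert_le _ _).trans ?_
  exact Nat.add_le_add_right Finset.card_image_le 1

theorem exists_gset {n : ℕ} (D : ℕ) (X S : Finset (Fin n)) (hS : S ⊆ X) (hD : S.card ≤ D) :
    ∃ g ∈ fs D X, gset g = S := by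
  refine ⟨fun i => if h : (i : ℕ) < S.card then some (S.equivFin.symm ⟨i, h⟩ : Fin n) else none,
    ?_, ?_⟩
  · unfold fs
    rw [Fintype.mem_piFinset]
    intro i
    by_cases h : (i : ℕ) < S.card
    · rw [dif_pos h]
      apply Finset.mem_insert_of_mem
      exact Finset.mem_image_of_mem _ (hS (S.equivFin.symm ⟨i, h⟩).2)
    · rw [dif_neg h]
      exact Finset.mem_insert_self _ _
  · ext v
    unfold gset
    rw [Finset.mem_filter]
    constructor
    · rintro ⟨_, i, hi⟩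
      dsimp only at hi
      by_cases h : (i : ℕ) < S.card
      · rw [dif_pos h] at hi
        rw [← Option.some_injective _ hi]
        exact (S.equivFin.symm ⟨i, h⟩).2
      · rw [dif_neg h] at hi
        exact absurd hi (by simp)
    · intro hv
      refine ⟨Finset.mem_univ _, ⟨(S.equivFin ⟨v, hv⟩ : ℕ), ?_⟩, ?_⟩
      · exact lt_of_lt_of_le (S.equivFin ⟨v, hv⟩).2 hD
      · have h : ((S.equivFin ⟨v, hv⟩ : Fin S.card) : ℕ) < S.card := (S.equivFin ⟨v, hv⟩).2
        show (if h : ((S.equivFin ⟨v, hv⟩ : Fin S.card) : ℕ) < S.card then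
          some (S.equivFin.symm ⟨_, h⟩ : Fin n) else none) = some v
        rw [dif_pos h]
        have : (⟨((S.equivFin ⟨v, hv⟩ : Fin S.card) : ℕ), h⟩ : Fin S.card) =
          S.equivFin ⟨v, hv⟩ := rfl
        rw [this, Equiv.symm_apply_apply]

/-- The union bound over the vectors of one kind. -/
theorem ubd1 {Ω : Type} [Fintype Ω] {ι : Type} [Fintype ι] (n D : ℕ)
    (C : ι → Fin n → ZMod 2) (X : Finset (Fin n)) (f : Ω → (Fin n → ZMod 2) → Prop) (ε : ℝ)
    (hε : 0 ≤ ε) (h2 : ∀ c, c ≠ 0 → pr (fun p => f p c) ≤ ε) :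
    pr (fun p : Ω => ∃ (i : ι) (S : Finset (Fin n)), S ⊆ X ∧ S.card ≤ D ∧
      C i + ind S ≠ 0 ∧ f p (C i + ind S)) ≤
      (Fintype.card ι : ℝ) * ((X.card : ℝ) + 1) ^ D * ε := by
  let Z : Finset (ι × (Fin D → Option (Fin n))) :=
    ((Finset.univ : Finset ι) ×ˢ fs D X).filter fun z => C z.1 + ind (gset z.2) ≠ 0
  have h1 : pr (fun p : Ω => ∃ (i : ι) (S : Finset (Fin n)), S ⊆ X ∧
      S.card ≤ D ∧ C i + ind S ≠ 0 ∧ f p (C i + ind S)) ≤
      pr (fun p : Ω => ∃ z ∈ Z, f p (C z.1 + ind (gset z.2))) := by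
    apply pr_mono
    rintro p ⟨i, S, hS, hD, hne, h0⟩
    obtain ⟨g, hg, hgS⟩ := exists_gset D X S hS hD
    refine ⟨(i, g), ?_, ?_⟩
    · rw [Finset.mem_filter, Finset.mem_product]
      refine ⟨⟨Finset.mem_univ _, hg⟩, ?_⟩
      show C i + ind (gset g) ≠ 0
      rw [hgS]
      exact hne
    · show f p (C i + ind (gset g))
      rw [hgS]
      exact h0
  refine h1.trans ((pr_exists_le Z fun z p => f p (C z.1 + ind (gset z.2))).trans ?_)
  refine (Finset.sum_le_card_nsmul Z _ ε fun z hz => h2 _ (Finset.mem_filter.1 hz).2).trans ?_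
  rw [nsmul_eq_mul]
  apply mul_le_mul_of_nonneg_right _ hε
  have h3 : Z.card ≤ Fintype.card ι * (X.card + 1) ^ D := by
    refine (Finset.card_filter_le _ _).trans ?_
    rw [Finset.card_product, Finset.card_univ]
    exact Nat.mul_le_mul_left _ (card_fs D X)
  calc (Z.card : ℝ) ≤ ((Fintype.card ι * (X.card + 1) ^ D : ℕ) : ℝ) := by exact_mod_cast h3
    _ = (Fintype.card ι : ℝ) * ((X.card : ℝ) + 1) ^ D := by push_cast; ring

theorem eps_nonneg (m T kk : ℕ) : (0 : ℝ) ≤ 1 / 2 ^ m + ((T : ℝ) + 1) / Qk kk := by positivity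

theorem ubd (hnk : HnkStmt) {ι : Type} [Fintype ι] (kk m n D T : ℕ) (hk : 1 ≤ kk)
    (hT : n + m ≤ T) (C : ι → Fin n → ZMod 2) (X : Finset (Fin n)) :
    pr (fun p : Fin (Qk kk) × Fin (Qk kk) => ∃ (i : ι) (S : Finset (Fin n)), S ⊆ X ∧ S.card ≤ D ∧
      C i + ind S ≠ 0 ∧ tm (Yf kk p.1 p.2) m (C i + ind S) = 0) ≤
      (Fintype.card ι : ℝ) * ((X.card : ℝ) + 1) ^ D * (1 / 2 ^ m + ((T : ℝ) + 1) / Qk kk) :=
  ubd1 n D C X (fun (p : Fin (Qk kk) × Fin (Qk kk)) c => tm (Yf kk p.1 p.2) m c = 0) _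
    (eps_nonneg m T kk) fun c hc => hnk kk n m T hk hT c hc

/-- GYP -/
theorem gyp (hnk : HnkStmt) : GypStmt := by
  intro kk m P e D n ρ kV T μ a hk hn hP hV
  have hε : (0 : ℝ) ≤ 1 / 2 ^ m + ((T : ℝ) + 1) / Qk kk := by positivity
  have h1 := ubd hnk kk m n D T hk hn (fun l : Fin ρ → ZMod 2 => comb a l) (VV P e D μ a)
  have h2 := ubd hnk kk m P D T hk hP
    (fun z : Fin P × (Fin ρ → ZMod 2) => hv P e z.1 (comb a z.2)) Finset.univ
  have h3 := pr_or_le (fun p : Fin (Qk kk) × Fin (Qk kk) => ∃ (l : Fin ρ → ZMod 2)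
      (S : Finset (Fin n)), S ⊆ VV P e D μ a ∧ S.card ≤ D ∧ comb a l + ind S ≠ 0 ∧
        tm (Yf kk p.1 p.2) m (comb a l + ind S) = 0)
    (fun p : Fin (Qk kk) × Fin (Qk kk) => ∃ (z : Fin P × (Fin ρ → ZMod 2))
      (S : Finset (Fin P)), S ⊆ Finset.univ ∧ S.card ≤ D ∧ hv P e z.1 (comb a z.2) + ind S ≠ 0 ∧
        tm (Yf kk p.1 p.2) m (hv P e z.1 (comb a z.2) + ind S) = 0)
  have h4 : pr (fun p : Fin (Qk kk) × Fin (Qk kk) => ¬ GoodY (Yf kk p.1 p.2) m P e D μ a) ≤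
      pr (fun p : Fin (Qk kk) × Fin (Qk kk) => (∃ (l : Fin ρ → ZMod 2)
      (S : Finset (Fin n)), S ⊆ VV P e D μ a ∧ S.card ≤ D ∧ comb a l + ind S ≠ 0 ∧
        tm (Yf kk p.1 p.2) m (comb a l + ind S) = 0) ∨ ∃ (z : Fin P × (Fin ρ → ZMod 2))
      (S : Finset (Fin P)), S ⊆ Finset.univ ∧ S.card ≤ D ∧ hv P e z.1 (comb a z.2) + ind S ≠ 0 ∧
        tm (Yf kk p.1 p.2) m (hv P e z.1 (comb a z.2) + ind S) = 0) := by
    apply pr_mono
    intro p hp
    by_contra hc
    push Not at hc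
    apply hp
    refine ⟨fun l S hS hD hne h0 => ?_, fun w hw l U hU hne h0 => ?_⟩
    · exact hc.1 l S hS hD hne h0
    · exact hc.2 (⟨w, hw⟩, l) U (Finset.subset_univ _) hU hne h0
  refine h4.trans (h3.trans ((add_le_add h1 h2).trans ?_))
  unfold errY
  have c1 : (Fintype.card (Fin ρ → ZMod 2) : ℝ) = 2 ^ ρ := by
    rw [Fintype.card_fun, Fintype.card_fin, ZMod.card]
    push_cast
    rfl
  have c2 : (Fintype.card (Fin P × (Fin ρ → ZMod 2)) : ℝ) = P * 2 ^ ρ := by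
    rw [Fintype.card_prod]
    push_cast
    rw [c1, Fintype.card_fin]
  have c3 : (((Finset.univ : Finset (Fin P)).card : ℕ) : ℝ) = P := by
    rw [Finset.card_univ, Fintype.card_fin]
  rw [c1, c2, c3, add_mul]
  apply add_le_add
  · apply mul_le_mul_of_nonneg_right _ hε
    apply mul_le_mul_of_nonneg_left _ (by positivity)
    apply pow_le_pow_left₀ (by positivity)
    have : ((VV P e D μ a).card : ℝ) ≤ kV := by exact_mod_cast hV
    linarith
  · rw [mul_assoc (P : ℝ)]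

end Pool.Agent.Helper95.AF
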