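import Pool.Agent.Helper26.AF.Base
import Pool.Agent.Helper26.AF.Goals

/-!
# Packet AF-CMP (project AF, MP_af6c86_pr): probability of prescribed components
-/

set_option autoImplicit false

namespace Pool.Agent.Helper95.AF

open Finset Pool.Agent.Helper26.AF

section comp
variable {V α : Type} (G : SimpleGraph V) (Q : Finset V) (f : α → V)

theorem walk_in (hr : Set.range f = (Q : Set V)) (hc : ∀ x ∈ Q, ∀ y ∉ Q, ¬ G.Adj x y) :
    ∀ {x y : V}, G.Walk x y → ∀ a, f a = x → ∃ b, f b = y ∧ (G.comap f).Reachable a b := by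
  intro x y w
  induction w with
  | nil => intro a ha; exact ⟨a, ha, SimpleGraph.Reachable.refl _⟩
  | cons h w ih =>
    rename_i u v w'
    intro a ha
    have hu : u ∈ Q := by
      have : u ∈ Set.range f := ⟨a, ha⟩
      rw [hr] at this
      exact this
    have hv : v ∈ Q := by
      by_contra hv
      exact hc u hu v hv h
    have hv' : v ∈ Set.range f := by rw [hr]; exact hv
    obtain ⟨b, hb⟩ := hv'
    obtain ⟨c, hc', hbc⟩ := ih b hb
    refine ⟨c, hc', SimpleGraph.Reachable.trans ?_ hbc⟩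
    refine SimpleGraph.Adj.reachable ?_
    rw [SimpleGraph.comap_adj, ha, hb]
    exact h

theorem isComp_iff (hf : Function.Injective f) (hr : Set.range f = (Q : Set V))
    (hne : Nonempty α) : IsComp G Q ↔
    (G.comap f).Connected ∧ ∀ x ∈ Q, ∀ y ∉ Q, ¬ G.Adj x y := by
  constructor
  · rintro ⟨c, hc⟩
    have hcl : ∀ x ∈ Q, ∀ y ∉ Q, ¬ G.Adj x y := by
      intro x hx y hy hxy
      have h1 : x ∈ c.supp := by rw [hc]; exact hx
      have h2 : y ∈ c.supp := (SimpleGraph.ConnectedComponent.mem_supp_congr_adj c hxy).1 h1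
      rw [hc] at h2
      exact hy h2
    refine ⟨⟨?_⟩, hcl⟩
    intro a b
    have ha : f a ∈ c.supp := by rw [hc, ← hr]; exact ⟨a, rfl⟩
    have hb : f b ∈ c.supp := by rw [hc, ← hr]; exact ⟨b, rfl⟩
    rw [SimpleGraph.ConnectedComponent.mem_supp_iff] at ha hb
    have hab : G.Reachable (f a) (f b) := SimpleGraph.ConnectedComponent.exact (ha.trans hb.symm)
    obtain ⟨w⟩ := hab
    obtain ⟨b', hb', h⟩ := walk_in G Q f hr hcl w a rfl
    rw [← hf hb']
    exact h
  · rintro ⟨hcon, hcl⟩
    obtain ⟨a0⟩ := hne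
    refine ⟨G.connectedComponentMk (f a0), ?_⟩
    ext y
    rw [SimpleGraph.ConnectedComponent.mem_supp_iff]
    constructor
    · intro h
      have h1 : G.Reachable (f a0) y := (SimpleGraph.ConnectedComponent.exact h).symm
      obtain ⟨w⟩ := h1
      obtain ⟨b, hb, -⟩ := walk_in G Q f hr hcl w a0 rfl
      rw [← hr]
      exact ⟨b, hb⟩
    · intro h
      rw [← hr] at h
      obtain ⟨b, rfl⟩ := h
      have h1 : (G.comap f).Reachable b a0 := hcon.preconnected b a0
      have hom : G.comap f →g G := ⟨f, fun h => h⟩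
      have h2 : G.Reachable (f b) (f a0) :=
        h1.map (⟨f, fun {_ _} h => h⟩ : G.comap f →g G)
      exact SimpleGraph.ConnectedComponent.sound h2

end comp

section cyl
variable {n q : ℕ} (Q : Fin q → Finset (Fin n))

/-- the families of graphs -/
abbrev Fam := ∀ i : Fin q, SimpleGraph (Fin #(Q i))

/-- the enumeration of `Q i` -/
noncomputable abbrev em (i : Fin q) : Fin #(Q i) ↪o Fin n := (Q i).orderEmbOfFin rfl

open Classical in
/-- the edges of the graphs `h i` -/
noncomputable def AA (h : Fam Q) : Finset (Sym2 (Fin n)) :=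
  univ.biUnion fun i => (h i).edgeFinset.map (em Q i).toEmbedding.sym2Map

open Classical in
/-- the pairs which touch the sets `Q i` -/
noncomputable def TT : Finset (Sym2 (Fin n)) :=
  (EV (Fin n)).filter fun e => ∃ v ∈ e, ∃ i, v ∈ Q i

theorem mem_AA (h : Fam Q) (x y : Fin n) : s(x, y) ∈ AA Q h ↔
    ∃ i a b, (h i).Adj a b ∧ em Q i a = x ∧ em Q i b = y := by
  classical
  unfold AA
  rw [mem_biUnion]
  constructor
  · rintro ⟨i, -, hi⟩
    rw [mem_map] at hi
    obtain ⟨e, he, hxy⟩ := hi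
    rw [SimpleGraph.mem_edgeFinset] at he
    revert he hxy
    refine Sym2.inductionOn e fun a b => ?_
    intro he hxy
    rw [SimpleGraph.mem_edgeSet] at he
    have h1 : s(em Q i a, em Q i b) = s(x, y) := hxy
    rw [Sym2.eq_iff] at h1
    rcases h1 with ⟨h1, h2⟩ | ⟨h1, h2⟩
    · exact ⟨i, a, b, he, h1, h2⟩
    · exact ⟨i, b, a, he.symm, h2, h1⟩
  · rintro ⟨i, a, b, hab, rfl, rfl⟩
    refine ⟨i, mem_univ _, ?_⟩
    rw [mem_map]
    refine ⟨s(a, b), ?_, rfl⟩
    rw [SimpleGraph.mem_edgeFinset, SimpleGraph.mem_edgeSet]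
    exact hab

theorem em_mem (i : Fin q) (a : Fin #(Q i)) : em Q i a ∈ Q i := (Q i).orderEmbOfFin_mem rfl a

theorem AA_sub (h : Fam Q) : AA Q h ⊆ TT Q := by
  classical
  intro e
  refine Sym2.inductionOn e fun x y => ?_
  intro he
  rw [mem_AA] at he
  obtain ⟨i, a, b, hab, rfl, rfl⟩ := he
  unfold TT
  rw [mem_filter, mem_EV]
  refine ⟨?_, em Q i a, Sym2.mem_mk_left _ _, i, em_mem Q i a⟩
  intro hd
  rw [Sym2.mk_isDiag_iff] at hd
  exact hab.ne ((em Q i).injective hd)

theorem card_AA (hd : ∀ i j, i ≠ j → Disjoint (Q i) (Q j)) (h : Fam Q) :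
    #(AA Q h) = ∑ i, ne (h i) := by
  classical
  unfold AA
  rw [card_biUnion]
  · refine sum_congr rfl fun i _ => ?_
    rw [card_map, ne, Nat.card_eq_fintype_card, SimpleGraph.card_edgeSet]
  · intro i _ j _ hij
    change Disjoint ((h i).edgeFinset.map (em Q i).toEmbedding.sym2Map)
      ((h j).edgeFinset.map (em Q j).toEmbedding.sym2Map)
    rw [Finset.disjoint_left]
    intro e he he'
    rw [mem_map] at he he'
    obtain ⟨e1, -, h1⟩ := he
    obtain ⟨e2, -, h2⟩ := he'
    rw [← h2] at h1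
    revert h1
    refine Sym2.inductionOn e1 fun a b => ?_
    refine Sym2.inductionOn e2 fun c d => ?_
    intro h1
    have h3 : s(em Q i a, em Q i b) = s(em Q j c, em Q j d) := h1
    have h4 : em Q i a ∈ s(em Q j c, em Q j d) := by
      rw [← h3]; exact Sym2.mem_mk_left _ _
    have h5 := em_mem Q i a
    rw [Sym2.mem_iff] at h4
    rcases h4 with h4 | h4
    · exact Finset.disjoint_left.1 (hd i j hij) h5 (h4 ▸ em_mem Q j c)
    · exact Finset.disjoint_left.1 (hd i j hij) h5 (h4 ▸ em_mem Q j d)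

theorem choose_add (a b : ℕ) : (a + b).choose 2 = a.choose 2 + b.choose 2 + a * b := by
  induction a with
  | zero => simp
  | succ a ih =>
    have h1 : (a + 1 + b).choose 2 = (a + b) + (a + b).choose 2 := by
      rw [show a + 1 + b = (a + b) + 1 by ring, Nat.choose_succ_succ' (a + b) 1, Nat.choose_one_right]
    have h2 : (a + 1).choose 2 = a + a.choose 2 := by
      rw [Nat.choose_succ_succ' a 1, Nat.choose_one_right]
    rw [h1, h2, ih]
    ring

theorem card_TT (hd : ∀ i j, i ≠ j → Disjoint (Q i) (Q j)) :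
    #(TT Q) = (∑ i, #(Q i)) * (n - ∑ i, #(Q i)) + (∑ i, #(Q i)).choose 2 := by
  classical
  obtain ⟨U, hU⟩ : ∃ U : Finset (Fin n), U = univ.biUnion Q := ⟨_, rfl⟩
  have hk : #U = ∑ i, #(Q i) := by
    rw [hU, card_biUnion]
    intro i _ j _ hij
    exact hd i j hij
  have hmem : ∀ v, (∃ i, v ∈ Q i) ↔ v ∈ U := by
    intro v
    rw [hU, mem_biUnion]
    simp
  have hle : #U ≤ n := by
    have := card_le_univ U
    simpa using this
  have h1 : #(TT Q) + #((EV (Fin n)).filter fun e => ¬ ∃ v ∈ e, ∃ i, v ∈ Q i) = n.choose 2 := by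
    unfold TT
    rw [card_filter_add_card_filter_not, card_EV, Fintype.card_fin]
  have h2 : (EV (Fin n)).filter (fun e => ¬ ∃ v ∈ e, ∃ i, v ∈ Q i) =
      (Uᶜ).offDiag.image (Function.uncurry Sym2.mk) := by
    ext e
    refine Sym2.inductionOn e fun x y => ?_
    rw [mem_filter, mem_EV, mem_image]
    constructor
    · rintro ⟨hxy, hno⟩
      refine ⟨(x, y), ?_, rfl⟩
      rw [mem_offDiag]
      refine ⟨?_, ?_, ?_⟩
      · rw [mem_compl]
        intro hx
        exact hno ⟨x, Sym2.mem_mk_left _ _, (hmem x).2 hx⟩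
      · rw [mem_compl]
        intro hy
        exact hno ⟨y, Sym2.mem_mk_right _ _, (hmem y).2 hy⟩
      · intro h
        exact hxy (by rw [Sym2.mk_isDiag_iff]; exact h)
    · rintro ⟨⟨a, b⟩, hab, hxy⟩
      rw [mem_offDiag] at hab
      have hxy' : s(a, b) = s(x, y) := hxy
      rw [← hxy']
      refine ⟨?_, ?_⟩
      · rw [Sym2.mk_isDiag_iff]; exact hab.2.2
      · rintro ⟨v, hv, hv'⟩
        rw [hmem] at hv'
        rw [Sym2.mem_iff] at hv
        rcases hv with rfl | rfl
        · exact (mem_compl.1 hab.1) hv'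
        · exact (mem_compl.1 hab.2.1) hv'
  have h3 : #((EV (Fin n)).filter fun e => ¬ ∃ v ∈ e, ∃ i, v ∈ Q i) = (n - #U).choose 2 := by
    rw [h2]
    have := Sym2.card_image_offDiag (Uᶜ)
    rw [card_compl, Fintype.card_fin] at this
    exact this
  rw [h3] at h1
  have h4 := choose_add #U (n - #U)
  rw [Nat.add_sub_cancel' hle] at h4
  rw [← hk]
  omega

/-- the cylinder of the family `h` -/
def Cyl (h : Fam Q) (G : SimpleGraph (Fin n)) : Prop :=
  (∀ e ∈ AA Q h, e ∈ G.edgeSet) ∧ ∀ e ∈ (TT Q \ AA Q h), e ∉ G.edgeSet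

theorem cyl_iff (hd : ∀ i j, i ≠ j → Disjoint (Q i) (Q j)) (h : Fam Q)
    (G : SimpleGraph (Fin n)) : Cyl Q h G ↔
    ∀ i, G.comap (em Q i) = h i ∧ ∀ x ∈ Q i, ∀ y ∉ Q i, ¬ G.Adj x y := by
  classical
  have huniq : ∀ i j x, x ∈ Q i → x ∈ Q j → i = j := by
    intro i j x hi hj
    by_contra hij
    exact Finset.disjoint_left.1 (hd i j hij) hi hj
  -- the meaning of the cylinder
  have key : Cyl Q h G ↔ ∀ x y, (∃ i, x ∈ Q i) → (G.Adj x y ↔ s(x, y) ∈ AA Q h) := by
    constructor
    · rintro ⟨hA, hB⟩ x y hx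
      constructor
      · intro hxy
        by_contra hn
        refine hB s(x, y) ?_ hxy
        rw [mem_sdiff]
        refine ⟨?_, hn⟩
        unfold TT
        rw [mem_filter, mem_EV]
        exact ⟨by rw [Sym2.mk_isDiag_iff]; exact hxy.ne, x, Sym2.mem_mk_left _ _, hx⟩
      · intro hxy
        exact hA _ hxy
    · intro hall
      refine ⟨?_, ?_⟩
      · intro e
        refine Sym2.inductionOn e fun x y => ?_
        intro he
        have hx : ∃ i, x ∈ Q i := by
          obtain ⟨i, a, b, -, rfl, -⟩ := (mem_AA Q h x y).1 he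
          exact ⟨i, em_mem Q i a⟩
        exact (hall x y hx).2 he
      · intro e
        refine Sym2.inductionOn e fun x y => ?_
        intro he hxy
        rw [mem_sdiff] at he
        obtain ⟨h1, h2⟩ := he
        unfold TT at h1
        rw [mem_filter] at h1
        obtain ⟨-, v, hv, hvi⟩ := h1
        rw [Sym2.mem_iff] at hv
        rcases hv with rfl | rfl
        · exact h2 ((hall v y hvi).1 hxy)
        · have h3 : G.Adj v x := G.adj_symm hxy
          have h4 := (hall v x hvi).1 h3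
          rw [Sym2.eq_swap] at h4
          exact h2 h4
  rw [key]
  constructor
  · intro hall i
    constructor
    · ext a b
      rw [SimpleGraph.comap_adj, hall _ _ ⟨i, em_mem Q i a⟩, mem_AA]
      constructor
      · rintro ⟨j, a', b', hab, h1, h2⟩
        have hij : j = i := huniq j i _ (em_mem Q j a') (h1 ▸ em_mem Q i a)
        subst hij
        rw [← (em Q j).injective h1, ← (em Q j).injective h2]
        exact hab
      · intro hab
        exact ⟨i, a, b, hab, rfl, rfl⟩
    · intro x hx y hy hxy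
      obtain ⟨j, a', b', hab, h1, h2⟩ := (mem_AA Q h x y).1 ((hall x y ⟨i, hx⟩).1 hxy)
      have hij : j = i := huniq j i x (h1 ▸ em_mem Q j a') hx
      subst hij
      exact hy (h2 ▸ em_mem Q j b')
  · intro hall x y hx
    obtain ⟨i, hx⟩ := hx
    rw [mem_AA]
    constructor
    · intro hxy
      have hy : y ∈ Q i := by
        by_contra hy
        exact (hall i).2 x hx y hy hxy
      have hx' : x ∈ Set.range (em Q i) := by
        rw [Finset.range_orderEmbOfFin]; exact hx
      have hy' : y ∈ Set.range (em Q i) := by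
        rw [Finset.range_orderEmbOfFin]; exact hy
      obtain ⟨a, rfl⟩ := hx'
      obtain ⟨b, rfl⟩ := hy'
      refine ⟨i, a, b, ?_, rfl, rfl⟩
      rw [← (hall i).1, SimpleGraph.comap_adj]
      exact hxy
    · rintro ⟨j, a, b, hab, rfl, rfl⟩
      rw [← (hall j).1, SimpleGraph.comap_adj] at hab
      exact hab

end cyl

theorem goalCMP (hCYL : StmtCYL) : StmtCMP := by
  classical
  intro n q Q hd hne P p p0 p1
  obtain ⟨k, hk⟩ : ∃ k, k = ∑ i, #(Q i) := ⟨_, rfl⟩
  obtain ⟨M, hM⟩ : ∃ M, M = k * (n - k) + k.choose 2 := ⟨_, rfl⟩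
  have hTT : #(TT Q) = M := by rw [card_TT Q hd, hM, hk]
  obtain ⟨t, ht⟩ : ∃ t : ∀ i : Fin q, Finset (SimpleGraph (Fin #(Q i))),
      t = fun i => univ.filter fun H => H.Connected ∧ P i #(Q i) H := ⟨_, rfl⟩
  have hcomp : ∀ (G : SimpleGraph (Fin n)) i, IsComp G (Q i) ↔
      (G.comap (em Q i)).Connected ∧ ∀ x ∈ Q i, ∀ y ∉ Q i, ¬ G.Adj x y := by
    intro G i
    refine isComp_iff G (Q i) (em Q i) (em Q i).injective (Finset.range_orderEmbOfFin _ _) ?_
    have : 0 < #(Q i) := Finset.card_pos.2 (hne i)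
    exact ⟨⟨0, this⟩⟩
  -- the event as a disjoint union of cylinders
  have hind : ∀ G : SimpleGraph (Fin n),
      (if ∀ i, IsComp G (Q i) ∧ P i #(Q i) (G.comap ((Q i).orderEmbOfFin rfl)) then (1 : ℝ) else 0)
      = ∑ h ∈ Fintype.piFinset t, if Cyl Q h G then (1 : ℝ) else 0 := by
    intro G
    by_cases hE : ∀ i, IsComp G (Q i) ∧ P i #(Q i) (G.comap ((Q i).orderEmbOfFin rfl))
    · rw [if_pos hE]
      have h0 : (fun i => G.comap (em Q i)) ∈ Fintype.piFinset t := by
        rw [Fintype.mem_piFinset]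
        intro i
        rw [ht, mem_filter]
        exact ⟨mem_univ _, ((hcomp G i).1 (hE i).1).1, (hE i).2⟩
      rw [Finset.sum_eq_single_of_mem _ h0]
      · rw [if_pos]
        rw [cyl_iff Q hd]
        exact fun i => ⟨rfl, ((hcomp G i).1 (hE i).1).2⟩
      · intro h _ hh
        rw [if_neg]
        intro hc
        rw [cyl_iff Q hd] at hc
        exact hh (funext fun i => ((hc i).1).symm)
    · rw [if_neg hE]
      symm
      refine Finset.sum_eq_zero fun h hh => ?_
      rw [if_neg]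
      intro hc
      rw [cyl_iff Q hd] at hc
      refine hE fun i => ?_
      rw [Fintype.mem_piFinset] at hh
      have h1 := hh i
      rw [ht, mem_filter] at h1
      have h2 : G.comap ((Q i).orderEmbOfFin rfl) = h i := (hc i).1
      refine ⟨(hcomp G i).2 ⟨?_, (hc i).2⟩, ?_⟩
      · rw [(hc i).1]; exact h1.2.1
      · rw [h2]; exact h1.2.2
  have hPr : Pr p (fun G : SimpleGraph (Fin n) => ∀ i, IsComp G (Q i) ∧
      P i #(Q i) (G.comap ((Q i).orderEmbOfFin rfl))) =
      ∑ h ∈ Fintype.piFinset t, Pr p (fun G => Cyl Q h G) := by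
    unfold Pr
    rw [← EE_sum]
    congr 1
    funext G
    convert hind G
  have hcyl : ∀ h : Fam Q, Pr p (fun G => Cyl Q h G) =
      (1 - p) ^ M * ∏ i, (p / (1 - p)) ^ ne (h i) := by
    intro h
    have h1 : Pr p (fun G => Cyl Q h G) = p ^ #(AA Q h) * (1 - p) ^ #(TT Q \ AA Q h) := by
      refine hCYL (Fin n) p (AA Q h) (TT Q \ AA Q h) disjoint_sdiff ?_
      intro e he
      rw [mem_union, mem_sdiff] at he
      have h2 : e ∈ TT Q := by
        rcases he with he | he
        · exact AA_sub Q h he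
        · exact he.1
      unfold TT at h2
      rw [mem_filter, mem_EV] at h2
      exact h2.1
    have h3 : #(TT Q \ AA Q h) = M - #(AA Q h) := by
      rw [card_sdiff_of_subset (AA_sub Q h), hTT]
    have h4 : #(AA Q h) ≤ M := by
      rw [← hTT]
      exact card_le_card (AA_sub Q h)
    have h5 : (1 - p) ≠ 0 := by linarith
    rw [h1, h3, Finset.prod_pow_eq_pow_sum, ← card_AA Q hd h, div_pow]
    have h6 : (1 - p) ^ M = (1 - p) ^ #(AA Q h) * (1 - p) ^ (M - #(AA Q h)) := by
      rw [← pow_add, Nat.add_sub_cancel' h4]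
    rw [h6]
    field_simp
  rw [hPr, Finset.sum_congr rfl (fun h _ => hcyl h), ← Finset.mul_sum, ← hk, ← hM]
  congr 1
  rw [← Finset.prod_univ_sum t (fun i H => (p / (1 - p)) ^ ne H)]
  refine Finset.prod_congr rfl fun i _ => ?_
  rw [finsum_eq_sum_of_fintype, ht]
  exact (Finset.sum_subtype (univ.filter fun H : SimpleGraph (Fin #(Q i)) =>
    H.Connected ∧ P i #(Q i) H) (fun H => by simp) (fun H => (p / (1 - p)) ^ ne H))

end Pool.Agent.Helper95.AF
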